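import Pool.Agent.H919.UE.ParCore
import Pool.Agent.H121.UE.Iface

set_option autoImplicit false

namespace Pool.Agent.H919.UE

theorem par : Pool.Agent.H121.UE.S_par := par_core

end Pool.Agent.H919.UE
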