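import Mathlib

set_option autoImplicit false
set_option maxHeartbeats 1000000

namespace Pool.Agent.H919.UE

theorem sqrt_amgm (x : ℝ) (hx : 0 ≤ x) : Real.sqrt x ≤ (1 + x) / 2 := by
  have hs := Real.sq_sqrt hx
  nlinarith [sq_nonneg (Real.sqrt x - 1)]

theorem e3_aux (C D lam θ c X : ℝ) (hθ : θ ≠ 0) (hc : c ≠ 0) :
    C / (θ * c) * (D * c / lam) ^ 3 * X = (C * (D / lam) ^ 3 * X) * c ^ 2 / θ := by
  by_cases hl : lam = 0
  · subst hl; simp
  · field_simp

theorem e8_aux (C2 θ c M : ℝ) (hC : C2 ≠ 0) (hθ : θ ≠ 0) (hM : M ≠ 0) :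
    C2 * (θ / (8 * M ^ 5 * C2)) * c / θ = c / (8 * M ^ 5) := by
  field_simp

theorem par_core : ∀ M M' C D lam : ℝ, 1 ≤ M → 0 ≤ M' → 0 < C → 0 < D → 0 < lam →
    ∃ s δ c η : ℝ, 1 / 2 ≤ s ∧ s < 1 ∧ 0 < δ ∧ δ ≤ 1 / 2 ∧ 0 < c ∧ 0 ≤ η ∧ η ≤ 1 ∧
      (M + 2 * (1 - s) * M') * (M - δ) ^ (-s) ≤ 1 + η ∧
      32 * η + C / (1 - s) * (D * c / lam) ^ 3 * (5 * (M + 2 * (1 - s) * M')) <
        ((M - δ) ^ (-s)) ^ 4 * (1 - ((M - δ) / (M - δ + c)) ^ s) := by
  intro M M' C D lam hM hM' hC hD hlam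
  have hM0 : 0 < M := by linarith
  obtain ⟨C1, hC1⟩ : ∃ C1, C1 = 2 * (2 * M' + M ^ 2 + 2 * M * M' + 1) := ⟨_, rfl⟩
  obtain ⟨C2, hC2⟩ : ∃ C2, C2 = C * (D / lam) ^ 3 * (5 * (M + 2 * M')) := ⟨_, rfl⟩
  have hMM' : 0 ≤ M * M' := mul_nonneg hM0.le hM'
  have hC1' : 2 ≤ C1 := by rw [hC1]; nlinarith
  have hC1p : 0 < C1 := by linarith
  have hC2p : 0 < C2 := by rw [hC2]; positivity
  have hM5 : 1 ≤ M ^ 5 := one_le_pow₀ hM
  obtain ⟨θ, hθ⟩ : ∃ θ, θ = 1 / (512 * C1 * M ^ 5) := ⟨_, rfl⟩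
  have hθp : 0 < θ := by rw [hθ]; positivity
  have hθC : C1 * θ = 1 / (512 * M ^ 5) := by rw [hθ]; field_simp
  have hθC' : C1 * θ ≤ 1 / 512 := by
    rw [hθC]
    apply one_div_le_one_div_of_le (by norm_num)
    linarith
  have hθ2 : θ ≤ 1 / 2 := by nlinarith
  obtain ⟨c, hc⟩ : ∃ c, c = min 1 (θ / (8 * M ^ 5 * C2)) := ⟨_, rfl⟩
  have hcp : 0 < c := by rw [hc]; apply lt_min one_pos; positivity
  have hc1 : c ≤ 1 := by rw [hc]; exact min_le_left _ _
  have hc2 : c ≤ θ / (8 * M ^ 5 * C2) := by rw [hc]; exact min_le_right _ _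
  obtain ⟨h, hh⟩ : ∃ h, h = θ * c := ⟨_, rfl⟩
  have hhp : 0 < h := by rw [hh]; positivity
  have hh2 : h ≤ 1 / 2 := by rw [hh]; nlinarith
  have hCh : C1 * h ≤ 1 := by
    rw [hh]; nlinarith [mul_pos hC1p hθp]
  have hMh : 0 < M - h := by linarith
  have e1 : (1 : ℝ) - (1 - h) = h := by ring
  refine ⟨1 - h, h, c, C1 * h, by linarith, by linarith, hhp, hh2, hcp, by positivity, hCh, ?_, ?_⟩
  · rw [e1]
    have h1 : (M - h) ^ (-(1 - h)) ≤ (1 + h * M) / (M - h) := by
      have e2 : -(1 - h) = h - 1 := by ring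
      rw [e2, Real.rpow_sub_one hMh.ne']
      apply div_le_div_of_nonneg_right _ hMh.le
      calc (M - h) ^ h ≤ (1 + (M - 1)) ^ h := by
            apply Real.rpow_le_rpow hMh.le (by linarith) hhp.le
        _ ≤ 1 + h * (M - 1) := by
            have := rpow_one_add_le_one_add_mul_self (s := M - 1) (p := h) (by linarith)
              hhp.le (by linarith)
            exact this
        _ ≤ 1 + h * M := by nlinarith
    have h2 : 0 ≤ M + 2 * h * M' := by positivity
    calc (M + 2 * h * M') * (M - h) ^ (-(1 - h)) ≤ (M + 2 * h * M') * ((1 + h * M) / (M - h)) :=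
          mul_le_mul_of_nonneg_left h1 h2
      _ = (M + 2 * h * M') * (1 + h * M) / (M - h) := by ring
      _ ≤ 1 + C1 * h := by
          rw [div_le_iff₀ hMh, hC1]
          have hh3 : h ^ 2 ≤ h * (1 / 2) := by nlinarith
          have hp1 : 0 ≤ h * M' := by positivity
          have hp2 : 0 ≤ h * M ^ 2 := by positivity
          have hp3 : 0 ≤ h * (M * M') := by positivity
          have hp4 : 0 ≤ h ^ 2 * (M * M') := by positivity
          have hk : 0 ≤ (M - h - 1 / 2) := by linarith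
          have hk2 : 0 ≤ (2 * M' + M ^ 2 + 2 * M * M' + 1) * h * (M - h - 1 / 2) := by
            have : 0 ≤ (2 * M' + M ^ 2 + 2 * M * M' + 1) := by nlinarith
            positivity
          have hk3 : 0 ≤ (h - h ^ 2) * (M * M') := mul_nonneg (by nlinarith) hMM'
          nlinarith
  · rw [e1]
    have hr : 0 < M - h + c := by linarith
    have h1 : M⁻¹ ≤ (M - h) ^ (-(1 - h)) := by
      rw [Real.rpow_neg hMh.le]
      apply inv_anti₀ (Real.rpow_pos_of_pos hMh _)
      calc (M - h) ^ (1 - h) ≤ M ^ (1 - h) := by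
            apply Real.rpow_le_rpow hMh.le (by linarith) (by linarith)
        _ ≤ M ^ (1 : ℝ) := Real.rpow_le_rpow_of_exponent_le hM (by linarith)
        _ = M := Real.rpow_one M
    have h2 : M⁻¹ ^ 4 ≤ ((M - h) ^ (-(1 - h))) ^ 4 := by
      apply pow_le_pow_left₀ (by positivity) h1
    have hr0 : 0 < (M - h) / (M - h + c) := by positivity
    have hr1 : (M - h) / (M - h + c) ≤ 1 := by rw [div_le_one hr]; linarith
    have h3 : ((M - h) / (M - h + c)) ^ (1 - h) ≤ (1 + (M - h) / (M - h + c)) / 2 := by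
      calc ((M - h) / (M - h + c)) ^ (1 - h) ≤ ((M - h) / (M - h + c)) ^ (1 / 2 : ℝ) :=
            Real.rpow_le_rpow_of_exponent_ge hr0 hr1 (by linarith)
        _ ≤ (1 + (M - h) / (M - h + c)) / 2 := by
            rw [← Real.sqrt_eq_rpow]
            exact sqrt_amgm _ hr0.le
    have h4 : c / (4 * M) ≤ 1 - ((M - h) / (M - h + c)) ^ (1 - h) := by
      have h5 : (M - h) / (M - h + c) ≤ 1 - c / (2 * M) := by
        rw [div_le_iff₀ hr]
        have : c / (2 * M) * (M - h + c) ≤ c := by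
          rw [div_mul_eq_mul_div, div_le_iff₀ (by positivity)]
          apply mul_le_mul_of_nonneg_left _ hcp.le
          linarith
        rw [sub_mul, one_mul]
        linarith
      have h6 : c / (4 * M) = c / (2 * M) / 2 := by ring
      rw [h6]
      linarith
    have h7 : c / (4 * M ^ 5) ≤ ((M - h) ^ (-(1 - h))) ^ 4 * (1 - ((M - h) / (M - h + c)) ^ (1 - h)) := by
      calc c / (4 * M ^ 5) = M⁻¹ ^ 4 * (c / (4 * M)) := by field_simp
        _ ≤ _ := by
          apply mul_le_mul h2 h4 (by positivity) (by positivity)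
    have h8 : C / h * (D * c / lam) ^ 3 * (5 * (M + 2 * h * M')) ≤ c / (8 * M ^ 5) := by
      have e3 : C / h * (D * c / lam) ^ 3 * (5 * (M + 2 * h * M')) =
          (C * (D / lam) ^ 3 * (5 * (M + 2 * h * M'))) * c ^ 2 / θ := by
        rw [hh]
        exact e3_aux C D lam θ c (5 * (M + 2 * (θ * c) * M')) hθp.ne' hcp.ne'
      have e4 : C * (D / lam) ^ 3 * (5 * (M + 2 * h * M')) ≤ C2 := by
        rw [hC2]
        apply mul_le_mul_of_nonneg_left _ (by positivity)
        nlinarith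
      rw [e3]
      calc (C * (D / lam) ^ 3 * (5 * (M + 2 * h * M'))) * c ^ 2 / θ ≤ C2 * c ^ 2 / θ := by
            apply div_le_div_of_nonneg_right _ hθp.le
            apply mul_le_mul_of_nonneg_right e4 (by positivity)
        _ = C2 * c * c / θ := by ring
        _ ≤ C2 * (θ / (8 * M ^ 5 * C2)) * c / θ := by
            apply div_le_div_of_nonneg_right _ hθp.le
            apply mul_le_mul_of_nonneg_right _ hcp.le
            apply mul_le_mul_of_nonneg_left hc2 hC2p.le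
        _ = c / (8 * M ^ 5) := e8_aux C2 θ c M hC2p.ne' hθp.ne' hM0.ne'
    have h9 : 32 * (C1 * h) = c / (16 * M ^ 5) := by
      rw [hh, show 32 * (C1 * (θ * c)) = 32 * (C1 * θ) * c by ring, hθC]; field_simp; norm_num
    have h10 : c / (16 * M ^ 5) + c / (8 * M ^ 5) < c / (4 * M ^ 5) := by
      have : 0 < c / M ^ 5 := by positivity
      have a1 : c / (16 * M ^ 5) = (c / M ^ 5) / 16 := by field_simp
      have a2 : c / (8 * M ^ 5) = (c / M ^ 5) / 8 := by field_simp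
      have a3 : c / (4 * M ^ 5) = (c / M ^ 5) / 4 := by field_simp
      rw [a1, a2, a3]; linarith
    rw [h9]
    linarith

end Pool.Agent.H919.UE
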